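import Pool.Agent.H57.CN.Targets

/-!
# Names of the classes of a chain: amalgamation (row AMN)
-/

set_option autoImplicit false
set_option linter.unusedVariables false

namespace Pool.Agent.H13.CN

open Pool.Agent.H68.BP Pool.Agent.H58.SF Pool.Agent.H53.NR
open Pool.Agent.H53.GC (strOn sigOf)
open Pool.Agent.H57.AR (tp ty Ty)
open Pool.Agent.H57.LH (Hmg tp_iff)
open Pool.Agent.H44.KR (HB Amg Tyi TpOn LcN)
open Pool.Agent.H72.CH
open Pool.Agent.H57.CN
open Function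

/-! ### Numbers of first entries -/

section prefixes

variable {X : Type} {m : ℕ}

open Classical in
/-- the number of the first entries with `P` -/
noncomputable def pn (P : X → Prop) (w : Fin m → X) : ℕ :=
  ((Finset.range (m + 1)).filter (fun j => ∀ i : Fin m, (i : ℕ) < j → P (w i))).sup id

theorem pn_le (P : X → Prop) (w : Fin m → X) : pn P w ≤ m := by
  classical
  refine Finset.sup_le fun j hj => ?_
  exact Nat.lt_succ_iff.1 (Finset.mem_range.1 (Finset.mem_filter.1 hj).1)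

theorem pn_all (P : X → Prop) (w : Fin m → X) (i : Fin m) (hi : (i : ℕ) < pn P w) : P (w i) := by
  classical
  have hne : ((Finset.range (m + 1)).filter
      (fun j => ∀ i : Fin m, (i : ℕ) < j → P (w i))).Nonempty :=
    ⟨0, Finset.mem_filter.2 ⟨Finset.mem_range.2 (Nat.succ_pos m),
      fun i hi => absurd hi (Nat.not_lt_zero _)⟩⟩
  obtain ⟨j, hj, he⟩ := Finset.exists_mem_eq_sup _ hne id
  have h1 : pn P w = j := he
  rw [h1] at hi
  exact (Finset.mem_filter.1 hj).2 i hi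

theorem le_pn {P : X → Prop} {w : Fin m → X} {j : ℕ} (hj : j ≤ m) :
    j ≤ pn P w ↔ ∀ i : Fin m, (i : ℕ) < j → P (w i) := by
  classical
  constructor
  · intro h i hi
    exact pn_all P w i (lt_of_lt_of_le hi h)
  · intro h
    exact Finset.le_sup (f := id) (Finset.mem_filter.2
      ⟨Finset.mem_range.2 (Nat.lt_succ_of_le hj), h⟩)

theorem pn_congr {P : X → Prop} {w w' : Fin m → X} {l j : ℕ} (hw : Agr l w w') (hj : j ≤ l)
    (hm : j ≤ m) : j ≤ pn P w ↔ j ≤ pn P w' := by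
  rw [le_pn hm, le_pn hm]
  refine forall_congr' fun i => forall_congr' fun hi => ?_
  rw [hw i (lt_of_lt_of_le hi hj)]

end prefixes

/-! ### Names with two families of dummies -/

section names

variable {V W : Type} {ρ : Sig} {m R : ℕ}

/-- the sorts -/
def srt (s : W → Fin m) : W ⊕ (Fin m × Fin 2) → Fin m := Sum.elim s Prod.fst

/-- read the dummies -/
def rd : W ⊕ (Fin m × Fin 2) → W ⊕ Fin m := Sum.map id Prod.fst

/-- name the dummies -/
def re (t : Fin 2) : W ⊕ Fin m → W ⊕ (Fin m × Fin 2) := Sum.map id fun i => (i, t)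

/-- the names in `A` and the dummies of the family `t` -/
def PA (A : Set W) (t : Fin 2) : W ⊕ (Fin m × Fin 2) → Prop :=
  Sum.elim (fun x => x ∈ A) fun q => q.2 = t

/-- the names in `A` and `B` -/
def PP (A B : Set W) : W ⊕ (Fin m × Fin 2) → Prop :=
  Sum.elim (fun x => x ∈ A ∧ x ∈ B) fun _ => False

/-- the first `k` entries, and dummies -/
def tr (w : Fin m → W ⊕ (Fin m × Fin 2)) (k : ℕ) : Fin m → W ⊕ Fin m :=
  fun i => if (i : ℕ) < k then rd (w i) else Sum.inr i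

theorem rd_re (t : Fin 2) (a : W ⊕ Fin m) : rd (re t a) = a := by
  rcases a with a | a <;> rfl

theorem sD_rd (s : W → Fin m) (a : W ⊕ (Fin m × Fin 2)) : sD s (rd a) = srt s a := by
  rcases a with a | a <;> rfl

theorem srt_re (s : W → Fin m) (t : Fin 2) (a : W ⊕ Fin m) : srt s (re t a) = sD s a := by
  rcases a with a | a <;> rfl

theorem rd_dm {A : Set W} {t : Fin 2} {a : W ⊕ (Fin m × Fin 2)} (h : PA A t a) :
    rd a ∈ (dm A : Set (W ⊕ Fin m)) := by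
  rcases a with a | a
  · intro x hx
    have h1 : a = x := Sum.inl.inj hx
    rw [← h1]
    exact h
  · intro x hx
    exact absurd hx (by simp [rd])

theorem inr_dm {A : Set W} (i : Fin m) : (Sum.inr i : W ⊕ Fin m) ∈ (dm A : Set (W ⊕ Fin m)) :=
  fun x hx => absurd hx (by simp)

theorem rd_inj {A : Set W} {t : Fin 2} {a b : W ⊕ (Fin m × Fin 2)} (ha : PA A t a)
    (hb : PA A t b) (h : rd a = rd b) : a = b := by
  rcases a with a | ⟨a, t'⟩ <;> rcases b with b | ⟨b, t''⟩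
  · exact congrArg Sum.inl (Sum.inl.inj h)
  · exact absurd h (by simp [rd])
  · exact absurd h (by simp [rd])
  · have h1 : a = b := Sum.inr.inj h
    have h2 : t' = t := ha
    have h3 : t'' = t := hb
    rw [h1, h2, h3]

theorem PP_of {A B : Set W} {a : W ⊕ (Fin m × Fin 2)} (h1 : PA A 0 a) (h2 : PA B 1 a) :
    PP A B a := by
  rcases a with a | ⟨a, t⟩
  · exact ⟨h1, h2⟩
  · have h3 : t = 0 := h1
    have h4 : t = 1 := h2
    rw [h3] at h4
    exact absurd h4 (by decide)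

theorem PP_left {A B : Set W} {a : W ⊕ (Fin m × Fin 2)} (h : PP A B a) : PA A 0 a := by
  rcases a with a | a
  · exact h.1
  · exact h.elim

theorem PP_right {A B : Set W} {a : W ⊕ (Fin m × Fin 2)} (h : PP A B a) : PA B 1 a := by
  rcases a with a | a
  · exact h.2
  · exact h.elim

theorem tr_fl {s : W → Fin m} {w : Fin m → W ⊕ (Fin m × Fin 2)} (hw : IsFl (srt s) w) (k : ℕ) :
    IsFl (sD s) (tr w k) := by
  intro i
  unfold tr
  split_ifs
  · rw [sD_rd]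
    exact hw i
  · rfl

theorem tr_dm {A : Set W} {t : Fin 2} {w : Fin m → W ⊕ (Fin m × Fin 2)} {k : ℕ}
    (h : ∀ i : Fin m, (i : ℕ) < k → PA A t (w i)) (i : Fin m) :
    tr w k i ∈ (dm A : Set (W ⊕ Fin m)) := by
  unfold tr
  split_ifs with hi
  · exact rd_dm (h i hi)
  · exact inr_dm i

theorem tr_agr {w w' : Fin m → W ⊕ (Fin m × Fin 2)} {k k' l : ℕ} (h : Agr l w w')
    (hk : ∀ i : ℕ, i < l → (i < k ↔ i < k')) : Agr l (tr w k) (tr w' k') := by
  intro i hi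
  unfold tr
  by_cases h1 : (i : ℕ) < k
  · rw [if_pos h1, if_pos ((hk i hi).1 h1), h i hi]
  · rw [if_neg h1, if_neg (fun h2 => h1 ((hk i hi).2 h2))]

theorem tr_full (w : Fin m → W ⊕ (Fin m × Fin 2)) : tr w m = fun i => rd (w i) := by
  funext i
  unfold tr
  rw [if_pos i.2]

end names

/-! ### Enumerations and extensions -/

theorem enum {X : Type} (U : Finset X) (hU : U.Nonempty) {R : ℕ} (hR : U.card ≤ R) :
    ∃ e : Fin R → X, (∀ a, e a ∈ U) ∧ ∀ u ∈ U, ∃ a, e a = u := by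
  classical
  obtain ⟨u₀, hu₀⟩ := hU
  refine ⟨fun a => if h : (a : ℕ) < U.card then (U.equivFin.symm ⟨a, h⟩ : X) else u₀,
    fun a => ?_, fun u hu => ?_⟩
  · dsimp only
    split_ifs with h
    · exact (U.equivFin.symm ⟨a, h⟩).2
    · exact hu₀
  · refine ⟨⟨U.equivFin ⟨u, hu⟩, lt_of_lt_of_le (U.equivFin ⟨u, hu⟩).2 hR⟩, ?_⟩
    dsimp only
    rw [dif_pos (U.equivFin ⟨u, hu⟩).2]
    simp

section main

variable {V W : Type} {ρ : Sig} {𝔹 : Str ρ V} {m R : ℕ} {lv : V → V → ℕ}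

theorem ext_tp (hV : HV 𝔹 m lv) {J K : Type} [Finite J] [Finite K] (u u' : J → V) (v : K → V)
    (h : tp 𝔹 u = tp 𝔹 u') :
    ∃ v' : K → V, tp 𝔹 (Sum.elim u' v') = tp 𝔹 (Sum.elim u v) := by
  obtain ⟨w, hw, hw'⟩ := hV.hmg (J ⊕ K) (Set.range Sum.inl) (Sum.elim u v) (Sum.elim u' v) (by
    have h1 := tp_iff.1 h
    constructor
    · rintro _ ⟨a, rfl⟩ _ ⟨b, rfl⟩
      exact h1.1 a b
    · intro l z hz
      choose y hy using hz
      have h2 : ∀ q : J → V, (fun i => (Sum.elim q v : J ⊕ K → V) (z i)) = fun i => q (y i) := by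
        intro q
        funext i
        rw [← hy i]
        rfl
      rw [h2 u, h2 u']
      exact h1.2 l y)
  refine ⟨fun k => w (Sum.inr k), ?_⟩
  have h3 : (Sum.elim u' (fun k => w (Sum.inr k)) : J ⊕ K → V) = w := by
    funext q
    rcases q with a | k
    · exact (hw' _ ⟨a, rfl⟩).symm
    · rfl
  rw [h3]
  exact hw

/-- the second map can be moved such that it fits to the first one -/
theorem move (hV : HV 𝔹 m lv) [Finite W] {A B : Set W} {s : W → Fin m}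
    {g₁ g₂ : (Fin m → W ⊕ Fin m) → V}
    (hNR : ∀ (i : NI ρ m R) (z : NA ρ m R i → W), (∀ q, z q ∈ A ∧ z q ∈ B) →
        (NR 𝔹 lv s (dk g₁) i z ↔ NR 𝔹 lv s (dk g₂) i z))
    (U : Finset {w : Fin m → W ⊕ (Fin m × Fin 2) // IsFl (srt s) w}) (hU : U.card ≤ R) :
    ∃ g : (Fin m → W ⊕ Fin m) → V, tp 𝔹 g = tp 𝔹 g₂ ∧ ∀ u ∈ U,
      pn (PP A B) u.1 ≤ lv (g₁ (tr u.1 (pn (PP A B) u.1))) (g (tr u.1 (pn (PP A B) u.1))) := by
  classical
  set U' := U.filter (fun u => 1 ≤ pn (PP A B) u.1) with hU'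
  rcases U'.eq_empty_or_nonempty with h0 | h0
  · refine ⟨g₂, rfl, fun u hu => ?_⟩
    have h1 : u ∉ U' := by rw [h0]; exact Finset.notMem_empty _
    have h2 : ¬ 1 ≤ pn (PP A B) u.1 := fun h => h1 (Finset.mem_filter.2 ⟨hu, h⟩)
    omega
  obtain ⟨e, he, he'⟩ := enum U' h0 (le_trans (Finset.card_le_card (Finset.filter_subset _ _)) hU)
  have hp : ∀ a, 1 ≤ pn (PP A B) (e a).1 := fun a => (Finset.mem_filter.1 (he a)).2
  have hpm : ∀ a, pn (PP A B) (e a).1 ≤ m := fun a => pn_le _ _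
  have hnm : ∀ (a : Fin R) (i : Fin m), ∃ x : W, (x ∈ A ∧ x ∈ B) ∧
      ((i : ℕ) < pn (PP A B) (e a).1 → (e a).1 i = Sum.inl x) := by
    intro a i
    have key : ∀ n : W ⊕ (Fin m × Fin 2), PP A B n → ∃ x : W, (x ∈ A ∧ x ∈ B) ∧ n = Sum.inl x := by
      intro n hn
      rcases n with x | q
      · exact ⟨x, hn, rfl⟩
      · exact hn.elim
    by_cases hi : (i : ℕ) < pn (PP A B) (e a).1
    · obtain ⟨x, hx, hx'⟩ := key _ (pn_all _ _ i hi)
      exact ⟨x, hx, fun _ => hx'⟩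
    · have hm : 0 < m := lt_of_lt_of_le (hp a) (hpm a)
      obtain ⟨x, hx, hx'⟩ := key _ (pn_all (PP A B) (e a).1 ⟨0, hm⟩ (hp a))
      exact ⟨x, hx, fun h => absurd h hi⟩
  choose z hz hz' using hnm
  let h : Fin R → Fin m := fun a => ⟨pn (PP A B) (e a).1 - 1, by
    have h1 := hp a
    have h2 := hpm a
    omega⟩
  have hh : ∀ a, (h a : ℕ) + 1 = pn (PP A B) (e a).1 := by
    intro a
    have h1 := hp a
    change pn (PP A B) (e a).1 - 1 + 1 = _
    omega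
  have hcp : ∀ a, cp (z a) (h a) = tr (e a).1 (pn (PP A B) (e a).1) := by
    intro a
    funext i
    have h1 := hh a
    unfold cp tr
    by_cases hi : (i : ℕ) < pn (PP A B) (e a).1
    · rw [if_pos hi, if_pos (show i ≤ h a by rw [Fin.le_def]; omega), hz' a i hi]
      rfl
    · rw [if_neg hi, if_neg (show ¬ i ≤ h a by rw [Fin.le_def]; omega)]
  have hs : ∀ (a : Fin R) (i : Fin m), i ≤ h a → s (z a i) = i := by
    intro a i hi
    have h1 := hh a
    rw [Fin.le_def] at hi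
    have h2 : (e a).1 i = Sum.inl (z a i) := hz' a i (by omega)
    have h3 := (e a).2 i
    rw [h2] at h3
    exact h3
  have hN1 : NR 𝔹 lv s (dk g₁) (Sum.inr (h, tp 𝔹 (fun a => dk g₁ (z a) (h a))) : NI ρ m R)
      (fun q : Fin R × Fin m => z q.1 q.2) := by
    refine ⟨hs, fun a => dk g₁ (z a) (h a), fun a => ?_, rfl⟩
    have h4 : lv (dk g₁ (z a) (h a)) (dk g₁ (z a) (h a)) = m := hV.lev.pl.self _
    change (h a : ℕ) + 1 ≤ lv (dk g₁ (z a) (h a)) (dk g₁ (z a) (h a))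
    rw [h4]
    exact (h a).2
  obtain ⟨-, x, hx, hx'⟩ := (hNR (Sum.inr (h, tp 𝔹 (fun a => dk g₁ (z a) (h a))))
    (fun q : Fin R × Fin m => z q.1 q.2) (fun q : Fin R × Fin m => hz q.1 q.2)).1 hN1
  obtain ⟨g, hg⟩ := ext_tp hV x (fun a => dk g₁ (z a) (h a)) g₂ hx'
  refine ⟨g, tp_comp hg Sum.inr, fun u hu => ?_⟩
  by_cases hu1 : 1 ≤ pn (PP A B) u.1
  · obtain ⟨a, rfl⟩ := he' u (Finset.mem_filter.2 ⟨hu, hu1⟩)
    have h5 := lv_tp hV hg (Sum.inl a) (Sum.inr (cp (z a) (h a)))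
    have h6 := hx a
    rw [← hcp a, ← hh a]
    change lv (dk g₁ (z a) (h a)) (g (cp (z a) (h a))) = lv (x a) (g₂ (cp (z a) (h a))) at h5
    change (h a : ℕ) + 1 ≤ lv (dk g₁ (z a) (h a)) (g (cp (z a) (h a)))
    rw [h5]
    exact h6
  · omega

/-- levels of truncations -/
theorem lv_tr {A : Set W} {t : Fin 2} {s : W → Fin m} {g : (Fin m → W ⊕ Fin m) → V}
    (hg : ExOn lv (sD s) g (dm A)) {w w' : Fin m → W ⊕ (Fin m × Fin 2)} (hw : IsFl (srt s) w)
    (hw' : IsFl (srt s) w') {k k' l : ℕ} (hl : l ≤ m) (hA : ∀ i : Fin m, (i : ℕ) < k → PA A t (w i))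
    (hA' : ∀ i : Fin m, (i : ℕ) < k' → PA A t (w' i)) (h : Agr l w w')
    (hk : ∀ i : ℕ, i < l → (i < k ↔ i < k')) : l ≤ lv (g (tr w k)) (g (tr w' k')) :=
  (hg _ _ (tr_fl hw k) (tr_fl hw' k') (tr_dm hA) (tr_dm hA') l hl).2 (tr_agr h hk)

open Classical in
/-- the local map -/
noncomputable def fm (A B : Set W) (s : W → Fin m) (g₁ g : (Fin m → W ⊕ Fin m) → V)
    (w : {w : Fin m → W ⊕ (Fin m × Fin 2) // IsFl (srt s) w}) : V :=
  if pn (PA B 1) w.1 ≤ pn (PA A 0) w.1 then g₁ (tr w.1 (pn (PA A 0) w.1))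
    else g (tr w.1 (pn (PA B 1) w.1))

/-- the mixed case -/
theorem fm_mixed (hV : HV 𝔹 m lv) {A B : Set W} {s : W → Fin m}
    {g₁ g : (Fin m → W ⊕ Fin m) → V} (hg₁ : ExOn lv (sD s) g₁ (dm A))
    (hg : ExOn lv (sD s) g (dm B)) {w w' : Fin m → W ⊕ (Fin m × Fin 2)} (hw : IsFl (srt s) w)
    (hw' : IsFl (srt s) w')
    (hmv : pn (PP A B) w ≤ lv (g₁ (tr w (pn (PP A B) w))) (g (tr w (pn (PP A B) w))))
    {l : ℕ} (hl : l ≤ m) (h : Agr l w w') (h1 : pn (PA B 1) w ≤ pn (PA A 0) w)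
    (h2 : pn (PA A 0) w' < pn (PA B 1) w') :
    l ≤ lv (g₁ (tr w (pn (PA A 0) w))) (g (tr w' (pn (PA B 1) w'))) := by
  have hle : l ≤ pn (PA A 0) w' := by
    by_contra hcon
    have e1 : pn (PA A 0) w' + 1 ≤ l := by omega
    have e2 : pn (PA A 0) w' + 1 ≤ pn (PA B 1) w :=
      (pn_congr h e1 (le_trans e1 hl)).2 h2
    have e3 : pn (PA A 0) w' + 1 ≤ pn (PA A 0) w' :=
      (pn_congr h e1 (le_trans e1 hl)).1 (le_trans e2 h1)
    omega
  have hA : l ≤ pn (PA A 0) w := (pn_congr h le_rfl hl).2 hle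
  have hB' : l ≤ pn (PA B 1) w' := by omega
  have hB : l ≤ pn (PA B 1) w := (pn_congr h le_rfl hl).2 hB'
  have hP : l ≤ pn (PP A B) w := (le_pn hl).2 fun i hi =>
    PP_of (pn_all _ _ i (lt_of_lt_of_le hi hA)) (pn_all _ _ i (lt_of_lt_of_le hi hB))
  have hrefl : Agr l w w := fun i _ => rfl
  have s1 : l ≤ lv (g₁ (tr w (pn (PA A 0) w))) (g₁ (tr w (pn (PP A B) w))) :=
    lv_tr (t := 0) hg₁ hw hw hl (fun i hi => pn_all _ _ i hi)
      (fun i hi => PP_left (pn_all _ _ i hi)) hrefl (fun i hi => by omega)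
  have s2 : l ≤ lv (g₁ (tr w (pn (PP A B) w))) (g (tr w (pn (PP A B) w))) := le_trans hP hmv
  have s3 : l ≤ lv (g (tr w (pn (PP A B) w))) (g (tr w' (pn (PA B 1) w'))) :=
    lv_tr (t := 1) hg hw hw' hl (fun i hi => PP_right (pn_all _ _ i hi))
      (fun i hi => pn_all _ _ i hi) h (fun i hi => by omega)
  exact le_trans (le_min (le_trans (le_min s1 s2) (hV.lev.pl.ult _ _ _)) s3)
    (hV.lev.pl.ult _ _ _)

/-- the local map preserves the levels -/
theorem fm_lv (hV : HV 𝔹 m lv) {A B : Set W} {s : W → Fin m}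
    {g₁ g : (Fin m → W ⊕ Fin m) → V} (hg₁ : ExOn lv (sD s) g₁ (dm A))
    (hg : ExOn lv (sD s) g (dm B))
    (U : Finset {w : Fin m → W ⊕ (Fin m × Fin 2) // IsFl (srt s) w})
    (hmv : ∀ u ∈ U,
      pn (PP A B) u.1 ≤ lv (g₁ (tr u.1 (pn (PP A B) u.1))) (g (tr u.1 (pn (PP A B) u.1)))) :
    ∀ w ∈ U, ∀ w' ∈ U, agl w.1 w'.1 ≤ lv (fm A B s g₁ g w) (fm A B s g₁ g w') := by
  intro w hw w' hw'
  have hl := agl_le w.1 w'.1
  have h := agr_agl w.1 w'.1
  unfold fm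
  split_ifs with c1 c2 c2
  · refine lv_tr (t := 0) hg₁ w.2 w'.2 hl (fun i hi => pn_all _ _ i hi)
      (fun i hi => pn_all _ _ i hi) h fun i hi => ?_
    exact pn_congr h hi (le_trans hi hl)
  · exact fm_mixed hV hg₁ hg w.2 w'.2 (hmv w hw) hl h c1 (not_le.1 c2)
  · rw [hV.lev.pl.sym]
    exact fm_mixed hV hg₁ hg w'.2 w.2 (hmv w' hw') hl (agr_sym h) c2 (not_le.1 c1)
  · refine lv_tr (t := 1) hg w.2 w'.2 hl (fun i hi => pn_all _ _ i hi)
      (fun i hi => pn_all _ _ i hi) h fun i hi => ?_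
    exact pn_congr h hi (le_trans hi hl)

theorem fm_left {A B : Set W} {s : W → Fin m} {g₁ g : (Fin m → W ⊕ Fin m) → V}
    (w : {w : Fin m → W ⊕ (Fin m × Fin 2) // IsFl (srt s) w}) (h : ∀ i, PA A 0 (w.1 i)) :
    fm A B s g₁ g w = g₁ (fun i => rd (w.1 i)) := by
  have h1 : pn (PA A 0) w.1 = m := le_antisymm (pn_le _ _) ((le_pn le_rfl).2 fun i _ => h i)
  unfold fm
  rw [if_pos (by rw [h1]; exact pn_le _ _), h1, tr_full]

theorem fm_right (hV : HV 𝔹 m lv) {A B : Set W} {s : W → Fin m}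
    {g₁ g : (Fin m → W ⊕ Fin m) → V}
    (w : {w : Fin m → W ⊕ (Fin m × Fin 2) // IsFl (srt s) w}) (h : ∀ i, PA B 1 (w.1 i))
    (hmv : pn (PP A B) w.1 ≤ lv (g₁ (tr w.1 (pn (PP A B) w.1))) (g (tr w.1 (pn (PP A B) w.1)))) :
    fm A B s g₁ g w = g (fun i => rd (w.1 i)) := by
  have h1 : pn (PA B 1) w.1 = m := le_antisymm (pn_le _ _) ((le_pn le_rfl).2 fun i _ => h i)
  unfold fm
  split_ifs with c
  · have h2 : pn (PA A 0) w.1 = m := le_antisymm (pn_le _ _) (le_trans (le_of_eq h1.symm) c)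
    have h3 : pn (PP A B) w.1 = m := le_antisymm (pn_le _ _) ((le_pn le_rfl).2 fun i _ =>
      PP_of (pn_all _ _ i (by rw [h2]; exact i.2)) (h i))
    rw [h3] at hmv
    rw [h2, ← tr_full]
    exact hV.lev.eq _ _ (le_antisymm (hV.lev.pl.le _ _) hmv)
  · rw [h1, tr_full]

/-- the conditions on the labels -/
theorem lab_lv (hV : HV 𝔹 m lv) {A : Set W} {t : Fin 2} {s : W → Fin m}
    {g : (Fin m → W ⊕ Fin m) → V} (hg : ExOn lv (sD s) g (dm A))
    (w w' : {w : Fin m → W ⊕ (Fin m × Fin 2) // IsFl (srt s) w}) (h : ∀ i, PA A t (w.1 i))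
    (h' : ∀ i, PA A t (w'.1 i)) :
    lv (g (fun i => rd (w.1 i))) (g (fun i => rd (w'.1 i))) = agl w.1 w'.1 := by
  have key : ∀ j ≤ m, j ≤ lv (g (fun i => rd (w.1 i))) (g (fun i => rd (w'.1 i))) ↔
      Agr j w.1 w'.1 := by
    intro j hj
    rw [hg _ _ (fun i => by rw [sD_rd]; exact w.2 i) (fun i => by rw [sD_rd]; exact w'.2 i)
      (fun i => rd_dm (h i)) (fun i => rd_dm (h' i)) j hj]
    constructor
    · intro ha i hi
      exact rd_inj (h i) (h' i) (ha i hi)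
    · intro ha i hi
      exact congrArg rd (ha i hi)
  refine le_antisymm ?_ ?_
  · exact (le_agl (hV.lev.pl.le _ _)).2 ((key _ (hV.lev.pl.le _ _)).1 le_rfl)
  · exact (key _ (agl_le _ _)).2 (agr_agl _ _)

/-! ### The result -/

open Classical in
/-- the map of the flags -/
noncomputable def gt (v₀ : V) (s : W → Fin m)
    (φ : {w : Fin m → W ⊕ (Fin m × Fin 2) // IsFl (srt s) w} → V) (t : Fin 2)
    (w : Fin m → W ⊕ Fin m) : V :=
  if h : IsFl (sD s) w then φ ⟨fun i => re t (w i), fun i => by rw [srt_re]; exact h i⟩ else v₀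

theorem gt_fl {v₀ : V} {s : W → Fin m}
    {φ : {w : Fin m → W ⊕ (Fin m × Fin 2) // IsFl (srt s) w} → V} {t : Fin 2}
    {w : Fin m → W ⊕ Fin m} (h : IsFl (sD s) w) :
    gt v₀ s φ t w = φ ⟨fun i => re t (w i), fun i => by rw [srt_re]; exact h i⟩ := dif_pos h

theorem cp_fl {s : W → Fin m} {z : Fin m → W} {h : Fin m} (hz : ∀ i, i ≤ h → s (z i) = i) :
    IsFl (sD s) (cp z h) := by
  intro i
  unfold cp
  split_ifs with hi
  · exact hz i hi
  · rfl

theorem re_cp {A : Set W} {z : Fin m → W} (hz : ∀ i, z i ∈ A) (h : Fin m) (t : Fin 2)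
    (i : Fin m) : PA A t (re t (cp z h i)) := by
  unfold cp
  split_ifs with hi
  · exact hz i
  · exact (rfl : t = t)

/-- the types of the result -/
theorem res_type (hV : HV 𝔹 m lv) {r : ℕ} (hr : ∀ l, ρ.ar l ≤ r) (h2 : 2 ≤ r) {C : Set W}
    {s : W → Fin m} {g : (Fin m → W ⊕ Fin m) → V} {v₀ : V}
    {φ : {w : Fin m → W ⊕ (Fin m × Fin 2) // IsFl (srt s) w} → V} {t : Fin 2}
    (hφ : ∀ z : Fin r → {w : Fin m → W ⊕ (Fin m × Fin 2) // IsFl (srt s) w},
      (∀ i j, PA C t ((z i).1 j)) → tp 𝔹 (fun i => φ (z i)) =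
        tp 𝔹 (fun i => g (fun j => rd ((z i).1 j))))
    (p : (Fin R → Fin m) × Ty ρ (Fin R)) (z : Fin R × Fin m → W) (hz : ∀ q, z q ∈ C) :
    NR 𝔹 lv s (dk (gt v₀ s φ t)) (Sum.inr p) z ↔ NR 𝔹 lv s (dk g) (Sum.inr p) z := by
  refine NR_type hV p z z (fun _ => rfl) fun hs => ?_
  refine tp_of_small r hr h2 fun ζ => ?_
  have h3 : ∀ a, IsFl (sD s) (cp (fun i => z (a, i)) (p.1 a)) := fun a => cp_fl (hs a)
  have h4 := hφ (fun i => ⟨fun j => re t (cp (fun j => z (ζ i, j)) (p.1 (ζ i)) j),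
    fun j => by rw [srt_re]; exact h3 (ζ i) j⟩) (fun i j => re_cp (fun j => hz _) _ _ _)
  have h5 : ∀ i, dk (gt v₀ s φ t) (fun j => z (ζ i, j)) (p.1 (ζ i)) =
      φ ⟨fun j => re t (cp (fun j => z (ζ i, j)) (p.1 (ζ i)) j),
        fun j => by rw [srt_re]; exact h3 (ζ i) j⟩ := fun i => gt_fl (h3 (ζ i))
  have h6 : ∀ i, dk g (fun j => z (ζ i, j)) (p.1 (ζ i)) =
      g (fun j => rd (re t (cp (fun j => z (ζ i, j)) (p.1 (ζ i)) j))) := fun i => by
    unfold dk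
    congr 1
    funext j
    rw [rd_re]
  simp only [h5, h6]
  exact h4

theorem pf_AMN (hRLX : T_RLX) : T_AMN := by
  intro V ρ 𝔹 m lv hV
  obtain ⟨M, hM⟩ := hRLX V ρ 𝔹 m lv hV (ρ.width + 2)
  refine ⟨M + 1, fun R hR W _ A B s g₁ g₂ hg₁ hg₂ hAB hNR => ?_⟩
  have hr : ∀ l, ρ.ar l ≤ ρ.width + 2 := fun l =>
    le_trans (Finset.le_sup (f := ρ.ar) (Finset.mem_univ l)) (Nat.le_add_right _ _)
  obtain ⟨φ, hφ, hφ'⟩ := hM {w : Fin m → W ⊕ (Fin m × Fin 2) // IsFl (srt s) w}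
    ({z : Fin (ρ.width + 2) → {w : Fin m → W ⊕ (Fin m × Fin 2) // IsFl (srt s) w} //
        ∀ i j, PA A 0 ((z i).1 j)} ⊕
      {z : Fin (ρ.width + 2) → {w : Fin m → W ⊕ (Fin m × Fin 2) // IsFl (srt s) w} //
        ∀ i j, PA B 1 ((z i).1 j)})
    (fun w w' => agl w.1 w'.1) (Sum.elim (fun a => a.1) (fun a => a.1))
    (Sum.elim (fun a i => g₁ (fun j => rd ((a.1 i).1 j)))
      (fun a i => g₂ (fun j => rd ((a.1 i).1 j))))
    ⟨fun w w' => plev_agl.le _ _, fun w => plev_agl.self _, fun w w' => plev_agl.sym _ _,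
      fun w w' w'' => plev_agl.ult _ _ _⟩
    (fun w w' h => Subtype.ext (agl_eq h))
    (by
      rintro (a | a) i j
      · exact lab_lv (t := 0) hV hg₁ _ _ (a.2 i) (a.2 j)
      · exact lab_lv (t := 1) hV hg₂ _ _ (a.2 i) (a.2 j))
    (by
      intro U hU
      obtain ⟨g, hg, hmv⟩ := move hV hNR U (le_trans hU (by omega))
      have hg' : ExOn lv (sD s) g (dm B) := by
        intro w w' hw hw' hwB hwB' j hj
        rw [lv_tp hV hg w w']
        exact hg₂ w w' hw hw' hwB hwB' j hj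
      refine ⟨fm A B s g₁ g, fm_lv hV hg₁ hg' U hmv, ?_⟩
      rintro (a | a) ha
      · have h1 : ∀ i, fm A B s g₁ g (a.1 i) = g₁ (fun j => rd ((a.1 i).1 j)) :=
          fun i => fm_left _ (a.2 i)
        change tp 𝔹 (fun i => fm A B s g₁ g (a.1 i)) = tp 𝔹 (fun i => g₁ (fun j => rd ((a.1 i).1 j)))
        simp only [h1]
      · have h1 : ∀ i, fm A B s g₁ g (a.1 i) = g (fun j => rd ((a.1 i).1 j)) :=
          fun i => fm_right hV _ (a.2 i) (hmv _ (ha i))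
        change tp 𝔹 (fun i => fm A B s g₁ g (a.1 i)) = tp 𝔹 (fun i => g₂ (fun j => rd ((a.1 i).1 j)))
        simp only [h1]
        exact tp_comp hg fun i j => rd ((a.1 i).1 j))
  obtain ⟨v₀⟩ := hV.ne
  have hφA : ∀ z : Fin (ρ.width + 2) → {w : Fin m → W ⊕ (Fin m × Fin 2) // IsFl (srt s) w},
      (∀ i j, PA A 0 ((z i).1 j)) → tp 𝔹 (fun i => φ (z i)) =
        tp 𝔹 (fun i => g₁ (fun j => rd ((z i).1 j))) := fun z hz => hφ' (Sum.inl ⟨z, hz⟩)
  have hφB : ∀ z : Fin (ρ.width + 2) → {w : Fin m → W ⊕ (Fin m × Fin 2) // IsFl (srt s) w},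
      (∀ i j, PA B 1 ((z i).1 j)) → tp 𝔹 (fun i => φ (z i)) =
        tp 𝔹 (fun i => g₂ (fun j => rd ((z i).1 j))) := fun z hz => hφ' (Sum.inr ⟨z, hz⟩)
  refine ⟨gt v₀ s φ 0, ?_, ?_, ?_⟩
  · intro w w' hw hw' _ _ j hj
    rw [gt_fl hw, gt_fl hw', hφ, le_agl hj]
    constructor
    · intro h i hi
      have h1 := congrArg rd (h i hi)
      simpa only [rd_re] using h1
    · intro h i hi
      exact congrArg (re 0) (h i hi)
  · rintro (i | p) z hz
    · exact Iff.rfl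
    · exact res_type hV hr (by omega) hφA p z hz
  · rintro (i | p) z hz
    · exact Iff.rfl
    · refine Iff.trans (NR_class hV (κ' := dk (gt v₀ s φ 1)) (fun z h hz => ?_) (Sum.inr p) z)
        (res_type hV hr (by omega) hφB p z hz)
      unfold dk
      rw [gt_fl (cp_fl hz), gt_fl (cp_fl hz), hφ]
      refine (le_agl h.2).2 fun i hi => ?_
      have h1 : i ≤ h := by rw [Fin.le_def]; omega
      simp only [cp, if_pos h1]
      rfl

end main

end Pool.Agent.H13.CN
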